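import Pool.Agent.H14.BR.Stm

/-!
# Crew BR, part RND: the set of the conditions of random forcing (literal Borel sets) is in `M`
-/

set_option autoImplicit false

namespace H30.BR

open ZFSet (pair)
open Pool.Agent.W868
open MeasureTheory H14.ES H46.RF H14.BR

theorem rnd (hBDF : S_BDF) (hNU1 : S_NU1) (hNU2 : S_NU2) (hPMD : S_PMD) (hZRL : S_ZRL)
    (hWRD : S_WRD) : H14.BR.S_RND := by
  intro M hMC
  have hM : IsZF M := hMC.toIsZF
  have hB := hM.base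
  obtain ⟨B, hBM, hBor⟩ := hBDF M hM
  obtain ⟨Q, hQM, hQ⟩ := hPMD M hM
  obtain ⟨hz1, hz2, hz3⟩ := hZRL
  obtain ⟨⟨Re, hReM, hRe⟩, -, -⟩ := hz3 M hM
  obtain ⟨hw1, hw2, hw3, hw4, hw5, hw6⟩ := hWRD
  obtain ⟨-, -, ⟨Wd, hWM, hW⟩, -⟩ := hw6 M hM
  -- the condition that the closed set of `M` coded by `T` is inside `b`
  have hIns : ∀ T b, Ins M T b ↔ ∀ x ∈ Re, (∀ z ∈ Wd, z ⊆ x → z ∈ T) → x ∈ b := by
    intro T b
    constructor
    · intro h x hx hx'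
      obtain ⟨hxM, s, rfl⟩ := (hRe x).1 hx
      refine h s (fun n => ?_) hxM
      exact hx' _ ((hW _).2 ⟨s, n, rfl⟩) ((hz1 s s n).2 fun i _ => rfl)
    · intro h s hs hsM
      refine h (zr s) ((hRe _).2 ⟨hsM, s, rfl⟩) ?_
      intro z hz hzs
      obtain ⟨r, n, rfl⟩ := (hW z).1 hz
      have h1 := (hz1 r s n).1 hzs
      rw [(hw3 r s n n).2 ⟨rfl, h1⟩]
      exact hs n
  let K : ZFSet.{0} → Prop := fun b =>
    ∃ T ∈ Q, ∀ x ∈ Re, (∀ z ∈ Wd, z ⊆ x → z ∈ T) → x ∈ b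
  have hD : Dfn M M fun w : Fin 1 → ZFSet.{0} => K (w 0) := by
    have h1 : Dfn M M fun w : Fin 1 → ZFSet.{0} =>
        ∃ T ∈ Q, ∀ x ∈ Re, (∀ z ∈ Wd, z ⊆ x → z ∈ T) → x ∈ w 0 := by
      (repeat' first
        | assumption
        | exact DfnF.proj _
        | exact DfnF.const (by assumption)
        | exact Dfn.prop _
        | apply Dfn.not | apply Dfn.and | apply Dfn.or | apply Dfn.imp | apply Dfn.iff
        | apply hB.subset'
        | apply hB.bex | apply hB.ball | apply Dfn.ex | apply Dfn.all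
        | apply Dfn.eq | apply Dfn.mem)
    exact h1
  refine ⟨ZFSet.sep K B, hM.sep_mem hD hBM, fun b => ?_⟩
  rw [ZFSet.mem_sep, hBor]
  change (IsBorelIn M b ∧ ∃ T ∈ Q, ∀ x ∈ Re, (∀ z ∈ Wd, z ⊆ x → z ∈ T) → x ∈ b) ↔ _
  constructor
  · rintro ⟨h1, T, hT, h2⟩
    exact ⟨h1, hNU1 M hM T ((hQ T).1 hT) b ((hIns T b).2 h2)⟩
  · intro h
    obtain ⟨T, hT, h2⟩ := hNU2 M hMC b h
    exact ⟨h.1, T, (hQ T).2 hT, (hIns T b).1 h2⟩

end H30.BR
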